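import Pool.Agent.helper95.FI.SpecA

/-!
# fi:CN2 (MP_ad8ced_nt)
-/

set_option autoImplicit false

open Finset

noncomputable section

namespace Pool.Agent.FI

private theorem CN2_part {z : ℤ × ℤ} (hz : Fd z) {e : ℕ} (he : Int.gcd z.1 z.2 = e) :
    ∃ a b : ℤ, z.1 = e * a ∧ z.2 = e * b ∧ 0 < e ∧ IsCoprime a b ∧ Fd (a, b) ∧
      nn z = e ^ 2 * nn (a, b) := by
  have h0 : z.1 ≠ 0 := by
    intro h
    have := hz.1
    rw [h] at this
    omega
  have he0 : 0 < e := by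
    rw [← he]
    exact Int.gcd_pos_of_ne_zero_left _ h0
  have her : (0 : ℤ) < e := by exact_mod_cast he0
  obtain ⟨a, ha⟩ : (e : ℤ) ∣ z.1 := he ▸ Int.gcd_dvd_left _ _
  obtain ⟨b, hb⟩ : (e : ℤ) ∣ z.2 := he ▸ Int.gcd_dvd_right _ _
  refine ⟨a, b, ha, hb, he0, ?_, ⟨?_, ?_⟩, ?_⟩
  · rw [Int.isCoprime_iff_gcd_eq_one]
    have h1 : Int.gcd ((e : ℤ) * a) (e * b) = e * Int.gcd a b := by
      rw [Int.gcd_mul_left]
      simp
    rw [← ha, ← hb, he] at h1
    have h2 : e * 1 = e * Int.gcd a b := by rw [mul_one]; exact h1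
    exact (Nat.eq_of_mul_eq_mul_left he0 h2).symm
  · have h1 := hz.1
    rw [ha] at h1
    show a % 2 = 1
    rcases Int.emod_two_eq_zero_or_one a with h | h
    · exfalso
      obtain ⟨c, hc⟩ := Int.dvd_of_emod_eq_zero h
      rw [hc, show (e : ℤ) * (2 * c) = 2 * (e * c) by ring] at h1
      omega
    · exact h
  · rcases hz.2 with h | h
    · left
      show 4 * |b| < a
      rw [ha, hb, abs_mul, abs_of_pos her] at h
      have : (e : ℤ) * (4 * |b|) < e * a := by linarith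
      exact lt_of_mul_lt_mul_left this her.le
    · right
      show |a| < 2 * b
      rw [ha, hb, abs_mul, abs_of_pos her] at h
      have : (e : ℤ) * |a| < e * (2 * b) := by linarith
      exact lt_of_mul_lt_mul_left this her.le
  · unfold nn N8
    rw [ha, hb]
    show ((e * a) ^ 2 - 8 * (e * b) ^ 2 : ℤ).natAbs = e ^ 2 * (a ^ 2 - 8 * b ^ 2 : ℤ).natAbs
    rw [show ((e * a) ^ 2 - 8 * (e * b) ^ 2 : ℤ) = ((e ^ 2 : ℕ) : ℤ) * (a ^ 2 - 8 * b ^ 2) by
      push_cast; ring, Int.natAbs_mul, Int.natAbs_natCast]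

theorem CN2 (hCN1 : CN1_stmt) (hSIZ : SIZ_stmt) : CN2_stmt := by
  classical
  intro k hk
  have hk0 : k ≠ 0 := by
    rintro rfl
    simp at hk
  have hFd : ∀ z ∈ FF k, Fd z := by
    intro z hz
    unfold FF at hz
    exact (Finset.mem_filter.1 hz).2.1
  rw [sq]
  refine Finset.card_le_mul_card_image_of_maps_to (f := fun z : ℤ × ℤ => Int.gcd z.1 z.2) ?_ _ ?_
  · intro z hz
    obtain ⟨hz1, hz2⟩ := Finset.mem_filter.1 hz
    obtain ⟨a, b, h1, h2, h3, h4, h5, h6⟩ := CN2_part (hFd z hz1) (e := Int.gcd z.1 z.2) rfl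
    rw [Nat.mem_divisors]
    refine ⟨?_, hk0⟩
    rw [← hz2, h6]
    exact dvd_mul_of_dvd_left (dvd_pow_self _ two_ne_zero) _
  · intro e _
    rcases Finset.eq_empty_or_nonempty (({z ∈ FF k | nn z = k} : Finset (ℤ × ℤ)).filter
      fun z : ℤ × ℤ => Int.gcd z.1 z.2 = e) with hemp | ⟨z0, hz0⟩
    · rw [hemp]
      simp
    · obtain ⟨hz01, hz02⟩ := Finset.mem_filter.1 hz0
      obtain ⟨hz03, hz04⟩ := Finset.mem_filter.1 hz01
      obtain ⟨a0, b0, g1, g2, g3, g4, g5, g6⟩ := CN2_part (hFd z0 hz03) hz02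
      set k' := nn (a0, b0) with hk'
      have hkk : k = e ^ 2 * k' := by rw [← hz04, g6]
      have hdvd : k' ∣ k := hkk ▸ dvd_mul_left _ _
      have hodd : Odd k' := Odd.of_dvd_nat hk hdvd
      have hcard := hCN1 k' hodd
      have hdiv : #k'.divisors ≤ #k.divisors :=
        Finset.card_le_card (Nat.divisors_subset_of_dvd hk0 hdvd)
      refine le_trans ?_ (hcard.trans hdiv)
      refine Finset.card_le_card_of_injOn (fun z => (z.1 / e, z.2 / e)) ?_ ?_
      · intro z hz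
        obtain ⟨hz1, hz2⟩ := Finset.mem_filter.1 (Finset.mem_coe.1 hz)
        obtain ⟨hz3, hz4⟩ := Finset.mem_filter.1 hz1
        obtain ⟨a, b, h1, h2, h3, h4, h5, h6⟩ := CN2_part (hFd z hz3) hz2
        have her : (e : ℤ) ≠ 0 := by exact_mod_cast h3.ne'
        have hza : (z.1 / e, z.2 / e) = (a, b) := by
          rw [h1, h2, Int.mul_ediv_cancel_left _ her, Int.mul_ediv_cancel_left _ her]
        apply Finset.mem_coe.2
        show (z.1 / (e : ℤ), z.2 / (e : ℤ)) ∈ _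
        rw [hza]
        have hnn : nn (a, b) = k' := by
          have : e ^ 2 * nn (a, b) = e ^ 2 * k' := by rw [← h6, hz4, hkk]
          exact Nat.eq_of_mul_eq_mul_left (by positivity) this
        refine Finset.mem_filter.2 ⟨?_, hnn, h4⟩
        have := (hSIZ (a, b) h5).2.2.2.1
        rwa [hnn] at this
      · intro z hz w hw hzw
        obtain ⟨hz1, hz2⟩ := Finset.mem_filter.1 (Finset.mem_coe.1 hz)
        obtain ⟨hz3, hz4⟩ := Finset.mem_filter.1 hz1
        obtain ⟨a, b, h1, h2, h3, h4, h5, h6⟩ := CN2_part (hFd z hz3) hz2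
        obtain ⟨hw1, hw2⟩ := Finset.mem_filter.1 (Finset.mem_coe.1 hw)
        obtain ⟨hw3, hw4⟩ := Finset.mem_filter.1 hw1
        obtain ⟨a', b', h1', h2', h3', h4', h5', h6'⟩ := CN2_part (hFd w hw3) hw2
        have her : (e : ℤ) ≠ 0 := by exact_mod_cast h3.ne'
        have hzw1 : (z.1 / (e : ℤ), z.2 / (e : ℤ)) = (w.1 / (e : ℤ), w.2 / (e : ℤ)) := hzw
        rw [h1, h2, h1', h2', Int.mul_ediv_cancel_left _ her, Int.mul_ediv_cancel_left _ her,
          Int.mul_ediv_cancel_left _ her, Int.mul_ediv_cancel_left _ her, Prod.mk.injEq] at hzw1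
        apply Prod.ext
        · rw [h1, h1', hzw1.1]
        · rw [h2, h2', hzw1.2]

end Pool.Agent.FI
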