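import Pool.Agent.helper95.FI.SpecM

/-!
# FI.GRP: the family of the ring class characters modulo `d`
-/

set_option autoImplicit false

open Finset

noncomputable section

namespace Pool.Agent.FI

/-- The ring `ℤ[√8]` modulo `d`. -/
abbrev GRP_R (d : ℕ) : Type := QuadraticAlgebra (ZMod d) 8 0

/-- Reduction modulo `d`. -/
def GRP_U (d : ℕ) (z : ℤ × ℤ) : GRP_R d := ⟨(z.1 : ZMod d), (z.2 : ZMod d)⟩

theorem GRP_U_mul (d : ℕ) (z w : ℤ × ℤ) : GRP_U d (mul8 z w) = GRP_U d z * GRP_U d w := by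
  apply QuadraticAlgebra.ext
  · rw [QuadraticAlgebra.re_mul]
    unfold GRP_U mul8
    push_cast
    ring
  · rw [QuadraticAlgebra.im_mul]
    unfold GRP_U mul8
    push_cast
    ring

theorem GRP_norm (d : ℕ) (z : ℤ × ℤ) :
    QuadraticAlgebra.norm (GRP_U d z) = ((N8 z : ℤ) : ZMod d) := by
  rw [QuadraticAlgebra.norm_def]
  unfold GRP_U N8
  push_cast
  ring

theorem GRP_unit (d : ℕ) (z : ℤ × ℤ) : IsUnit (GRP_U d z) ↔ Nat.Coprime (nn z) d := by
  rw [QuadraticAlgebra.isUnit_iff_norm_isUnit, GRP_norm, ZMod.coe_int_isUnit_iff_isCoprime,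
    Int.isCoprime_iff_nat_coprime, Int.natAbs_natCast]
  exact Nat.coprime_comm

theorem GRP_finite (d : ℕ) [NeZero d] : Finite (GRP_R d) :=
  Finite.of_equiv _ (QuadraticAlgebra.equivProd (8 : ZMod d) 0).symm

/-- The units which are rational integers. -/
def GRP_H (d : ℕ) : Subgroup (GRP_R d)ˣ :=
  (Units.map (algebraMap (ZMod d) (GRP_R d)).toMonoidHom).range

theorem GRP_mem_H (d : ℕ) (u : (GRP_R d)ˣ) : u ∈ GRP_H d ↔ (u : GRP_R d).im = 0 := by
  constructor
  · rintro ⟨v, rfl⟩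
    rfl
  · intro h
    have h1 : (u : GRP_R d) = algebraMap (ZMod d) (GRP_R d) (u : GRP_R d).re := by
      apply QuadraticAlgebra.ext
      · rfl
      · exact h
    have h2 : IsUnit ((u : GRP_R d).re) := by
      have h3 : IsUnit (QuadraticAlgebra.norm (u : GRP_R d)) :=
        QuadraticAlgebra.isUnit_iff_norm_isUnit.mp u.isUnit
      rw [h1, QuadraticAlgebra.norm_algebraMap] at h3
      exact (isUnit_pow_iff two_ne_zero).mp h3
    refine ⟨h2.unit, ?_⟩
    apply Units.ext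
    exact h1.symm

/-- The class group, written additively. -/
def GRP_A (d : ℕ) : Type := Additive ((GRP_R d)ˣ ⧸ GRP_H d)

instance GRP_inst (d : ℕ) : AddCommGroup (GRP_A d) :=
  inferInstanceAs (AddCommGroup (Additive ((GRP_R d)ˣ ⧸ GRP_H d)))

/-- The class of a unit. -/
def GRP_cl (d : ℕ) (u : (GRP_R d)ˣ) : GRP_A d :=
  Additive.ofMul (QuotientGroup.mk u : (GRP_R d)ˣ ⧸ GRP_H d)

theorem GRP_cl_mul (d : ℕ) (u v : (GRP_R d)ˣ) : GRP_cl d (u * v) = GRP_cl d u + GRP_cl d v := rfl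

theorem GRP_cl_zero (d : ℕ) (u : (GRP_R d)ˣ) : GRP_cl d u = 0 ↔ (u : GRP_R d).im = 0 := by
  rw [← GRP_mem_H]
  exact QuotientGroup.eq_one_iff u

theorem GRP_cl_surj (d : ℕ) (a : GRP_A d) : ∃ u, GRP_cl d u = a := by
  obtain ⟨u, hu⟩ := QuotientGroup.mk_surjective (s := GRP_H d) (Additive.toMul a)
  exact ⟨u, hu⟩

theorem GRP_finite_A (d : ℕ) [NeZero d] : Finite (GRP_A d) := by
  have := GRP_finite d
  exact Finite.of_surjective (GRP_cl d) (GRP_cl_surj d)

open scoped Classical in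
/-- The character of `ℤ[√8]` given by a character of the class group. -/
def GRP_psi (d : ℕ) (χ : AddChar (GRP_A d) ℂ) (z : ℤ × ℤ) : ℂ :=
  if h : IsUnit (GRP_U d z) then χ (GRP_cl d h.unit) else 0

theorem GRP_psi_unit (d : ℕ) (χ : AddChar (GRP_A d) ℂ) (z : ℤ × ℤ) (u : (GRP_R d)ˣ)
    (hu : (u : GRP_R d) = GRP_U d z) :
    GRP_psi d χ z = χ (GRP_cl d u) := by
  have h : IsUnit (GRP_U d z) := hu ▸ u.isUnit
  have h1 : h.unit = u := Units.ext hu.symm
  unfold GRP_psi
  rw [dif_pos h, h1]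

theorem GRP_isRC (d : ℕ) [NeZero d] (χ : AddChar (GRP_A d) ℂ) :
    IsRC d (GRP_psi d χ) := by
  have := GRP_finite_A d
  refine ⟨?_, ?_, ?_, ?_, ?_⟩
  · intro z w
    by_cases hz : IsUnit (GRP_U d z)
    · by_cases hw : IsUnit (GRP_U d w)
      · rw [GRP_psi_unit d χ z hz.unit rfl, GRP_psi_unit d χ w hw.unit rfl,
          GRP_psi_unit d χ (mul8 z w) (hz.unit * hw.unit) (GRP_U_mul d z w).symm,
          ← AddChar.map_add_eq_mul, GRP_cl_mul]
      · have h1 : ¬ IsUnit (GRP_U d (mul8 z w)) := by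
          rw [GRP_U_mul]
          exact fun h => hw (isUnit_of_mul_isUnit_right h)
        unfold GRP_psi
        rw [dif_neg h1, dif_neg hw, mul_zero]
    · have h1 : ¬ IsUnit (GRP_U d (mul8 z w)) := by
        rw [GRP_U_mul]
        exact fun h => hz (isUnit_of_mul_isUnit_left h)
      unfold GRP_psi
      rw [dif_neg h1, dif_neg hz, zero_mul]
  · intro z w h1 h2
    have h3 : GRP_U d z = GRP_U d w := by
      have e1 : ((z.1 : ℤ) : ZMod d) = ((w.1 : ℤ) : ZMod d) := by
        rw [eq_comm, ZMod.intCast_eq_intCast_iff_dvd_sub]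
        exact h1
      have e2 : ((z.2 : ℤ) : ZMod d) = ((w.2 : ℤ) : ZMod d) := by
        rw [eq_comm, ZMod.intCast_eq_intCast_iff_dvd_sub]
        exact h2
      unfold GRP_U
      rw [e1, e2]
    unfold GRP_psi
    rw [h3]
  · intro z hz
    unfold GRP_psi
    rw [dif_neg]
    rw [GRP_unit]
    exact hz
  · intro z hz
    rw [← GRP_unit] at hz
    rw [GRP_psi_unit d χ z hz.unit rfl]
    exact AddChar.norm_apply χ _
  · intro t ht
    have h1 : IsUnit (GRP_U d (t, 0)) := by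
      rw [GRP_unit]
      unfold nn N8
      rw [Int.isCoprime_iff_nat_coprime, Int.natAbs_natCast] at ht
      have e : ((t, (0 : ℤ)).1 ^ 2 - 8 * (t, (0 : ℤ)).2 ^ 2 : ℤ) = t ^ 2 := by
        show t ^ 2 - 8 * (0 : ℤ) ^ 2 = t ^ 2
        ring
      rw [e, Int.natAbs_pow]
      exact Nat.Coprime.pow_left 2 ht
    rw [GRP_psi_unit d χ (t, 0) h1.unit rfl]
    have h2 : GRP_cl d h1.unit = 0 := by
      rw [GRP_cl_zero]
      show ((((0 : ℤ)) : ZMod d)) = 0
      exact Int.cast_zero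
    rw [h2]
    exact AddChar.map_zero_eq_one χ

open scoped Classical in
theorem GRP_card (d : ℕ) [NeZero d] :
    Nat.card (GRP_A d) * Nat.totient d =
      #{z ∈ (range d) ×ˢ (range d) | Nat.Coprime (nn ((z.1 : ℤ), (z.2 : ℤ))) d} := by
  have := GRP_finite d
  have h1 : Nat.card (GRP_R d)ˣ = Nat.card (GRP_A d) * Nat.card (GRP_H d) :=
    Subgroup.card_eq_card_quotient_mul_card_subgroup (GRP_H d)
  have h2 : Nat.card (GRP_H d) = Nat.totient d := by
    unfold GRP_H
    have hinj : Function.Injective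
        (Units.map (algebraMap (ZMod d) (GRP_R d)).toMonoidHom) :=
      Units.map_injective QuadraticAlgebra.algebraMap_injective
    rw [← Nat.card_congr (MonoidHom.ofInjective hinj).toEquiv, Nat.card_eq_fintype_card,
      ZMod.card_units_eq_totient]
  rw [h2] at h1
  rw [← h1]
  have : Fintype (GRP_R d)ˣ := Fintype.ofFinite _
  rw [Nat.card_eq_fintype_card, ← Finset.card_univ]
  symm
  refine Finset.card_bij (fun z hz => ((GRP_unit d ((z.1 : ℤ), (z.2 : ℤ))).mpr
    (Finset.mem_filter.mp hz).2).unit) ?_ ?_ ?_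
  · intro z hz
    exact Finset.mem_univ _
  · intro z hz w hw h
    have h3 : GRP_U d ((z.1 : ℤ), (z.2 : ℤ)) = GRP_U d ((w.1 : ℤ), (w.2 : ℤ)) :=
      congrArg Units.val h
    have hz' := Finset.mem_product.mp (Finset.mem_filter.mp hz).1
    have hw' := Finset.mem_product.mp (Finset.mem_filter.mp hw).1
    rw [Finset.mem_range, Finset.mem_range] at hz' hw'
    have e1 : (((z.1 : ℕ) : ℤ) : ZMod d) = (((w.1 : ℕ) : ℤ) : ZMod d) :=
      congrArg QuadraticAlgebra.re h3
    have e2 : (((z.2 : ℕ) : ℤ) : ZMod d) = (((w.2 : ℕ) : ℤ) : ZMod d) :=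
      congrArg QuadraticAlgebra.im h3
    rw [Int.cast_natCast, Int.cast_natCast] at e1 e2
    apply Prod.ext
    · have := congrArg ZMod.val e1
      rw [ZMod.val_cast_of_lt hz'.1, ZMod.val_cast_of_lt hw'.1] at this
      exact this
    · have := congrArg ZMod.val e2
      rw [ZMod.val_cast_of_lt hz'.2, ZMod.val_cast_of_lt hw'.2] at this
      exact this
  · intro u _
    have hu : GRP_U d (((u : GRP_R d).re.val : ℤ), ((u : GRP_R d).im.val : ℤ)) =
        (u : GRP_R d) := by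
      apply QuadraticAlgebra.ext
      · show ((((u : GRP_R d).re.val : ℕ) : ℤ) : ZMod d) = (u : GRP_R d).re
        rw [Int.cast_natCast, ZMod.natCast_zmod_val]
      · show ((((u : GRP_R d).im.val : ℕ) : ℤ) : ZMod d) = (u : GRP_R d).im
        rw [Int.cast_natCast, ZMod.natCast_zmod_val]
    refine ⟨((u : GRP_R d).re.val, (u : GRP_R d).im.val), ?_, ?_⟩
    · rw [Finset.mem_filter, Finset.mem_product, Finset.mem_range, Finset.mem_range]
      refine ⟨⟨ZMod.val_lt _, ZMod.val_lt _⟩, ?_⟩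
      rw [← GRP_unit]
      show IsUnit (GRP_U d (((u : GRP_R d).re.val : ℤ), ((u : GRP_R d).im.val : ℤ)))
      rw [hu]
      exact u.isUnit
    · apply Units.ext
      exact hu

theorem GRP : GRP_stmt := by
  intro d hd
  have hd0 : d ≠ 0 := by
    rintro rfl
    exact absurd hd (by decide)
  have : NeZero d := ⟨hd0⟩
  have := GRP_finite_A d
  classical
  have hf : Fintype (GRP_A d) := Fintype.ofFinite _
  have hcard : Fintype.card (AddChar (GRP_A d) ℂ) = Nat.card (GRP_A d) := by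
    rw [AddChar.card_eq, ← Nat.card_eq_fintype_card]
  have e : Fin (Nat.card (GRP_A d)) ≃ AddChar (GRP_A d) ℂ :=
    (Fintype.equivFinOfCardEq hcard).symm
  refine ⟨Nat.card (GRP_A d), fun i => GRP_psi d (e i), ⟨Nat.card_pos, fun i => GRP_isRC d (e i),
    ?_, ?_⟩, GRP_card d⟩
  · intro z hz
    rw [← GRP_unit] at hz
    have h1 : ∑ i, GRP_psi d (e i) z =
        ∑ χ : AddChar (GRP_A d) ℂ, χ (GRP_cl d hz.unit) := by
      rw [← Equiv.sum_comp e]
      apply Finset.sum_congr rfl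
      intro i _
      exact GRP_psi_unit d (e i) z hz.unit rfl
    rw [h1, AddChar.sum_apply_eq_ite]
    have h2 : GRP_cl d hz.unit = 0 ↔ (d : ℤ) ∣ z.2 := by
      rw [GRP_cl_zero]
      show ((z.2 : ℤ) : ZMod d) = 0 ↔ _
      exact ZMod.intCast_zmod_eq_zero_iff_dvd z.2 d
    rw [Nat.card_eq_fintype_card]
    by_cases h4 : (d : ℤ) ∣ z.2
    · rw [if_pos h4, if_pos (h2.mpr h4)]
    · rw [if_neg h4, if_neg (fun h5 => h4 (h2.mp h5))]
  · refine ⟨e.symm 0, ?_, ?_⟩
    · intro z hz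
      rw [← GRP_unit] at hz
      show GRP_psi d (e (e.symm 0)) z = 1
      rw [GRP_psi_unit d _ z hz.unit rfl, Equiv.apply_symm_apply]
      exact AddChar.zero_apply _
    · intro i hi
      rw [Equiv.eq_symm_apply]
      apply AddChar.ext
      intro a
      rw [AddChar.zero_apply]
      obtain ⟨u, rfl⟩ := GRP_cl_surj d a
      have hu : GRP_U d (((u : GRP_R d).re.val : ℤ), ((u : GRP_R d).im.val : ℤ)) =
          (u : GRP_R d) := by
        apply QuadraticAlgebra.ext
        · show ((((u : GRP_R d).re.val : ℕ) : ℤ) : ZMod d) = (u : GRP_R d).re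
          rw [Int.cast_natCast, ZMod.natCast_zmod_val]
        · show ((((u : GRP_R d).im.val : ℕ) : ℤ) : ZMod d) = (u : GRP_R d).im
          rw [Int.cast_natCast, ZMod.natCast_zmod_val]
      have h5 := GRP_psi_unit d (e i) _ u hu.symm
      rw [← h5]
      apply hi
      rw [← GRP_unit, hu]
      exact u.isUnit

end Pool.Agent.FI
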